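import Pool.Agent.Helper60.T3.GoalsI

/-!
# Packet T3-FDEG (MP_a41896_nt): degree of the field generated by the points of the curve lemma
-/

set_option autoImplicit false

open MvPolynomial

namespace Pool.Agent.Helper34.T3.FDEG

open WeierstrassCurve
open Pool.Agent.Helper29.BL Pool.Agent.Helper92.Ru Pool.Agent.Helper42.SG
open Pool.Agent.Helper60.T3

noncomputable section

theorem ps_sq {F : Type} [Field F] {W : Affine F} (P : W.Point) (hP : P ≠ 0) :
    ps P ^ 2 = Bf W (xc P) := by
  rcases P with _ | ⟨x, y, hxy⟩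
  · exact absurd rfl hP
  · show (2 * y + W.a₁ * x + W.a₃) ^ 2 = Bf W x
    have h := (W.equation_iff x y).1 hxy.1
    unfold Bf
    rw [WeierstrassCurve.b₂, WeierstrassCurve.b₄, WeierstrassCurve.b₆]
    linear_combination 4 * h

/-! ## Specialising the first variable -/

section plane

variable {k F : Type} [Field k] [Field F] [Algebra k F]

/-- the polynomial `g(u, X)` -/
def sp (g : MvPolynomial (Fin 2) k) (u : F) : Polynomial F :=
  aeval ![Polynomial.C u, Polynomial.X] g

/-- the coefficient of `X_1^t` -/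
def cf (g : MvPolynomial (Fin 2) k) (t : ℕ) : Polynomial k :=
  ∑ m ∈ g.support, if m 1 = t then Polynomial.monomial (m 0) (coeff m g) else 0

lemma coeff_sp (g : MvPolynomial (Fin 2) k) (u : F) (t : ℕ) :
    (sp g u).coeff t = Polynomial.aeval u (cf g t) := by
  unfold sp cf
  rw [aeval_def, eval₂_eq', Polynomial.finsetSum_coeff, map_sum]
  refine Finset.sum_congr rfl fun m _ => ?_
  rw [Fin.prod_univ_two]
  simp only [Matrix.cons_val_zero, Matrix.cons_val_one]
  have h1 : (algebraMap k (Polynomial F)) (coeff m g) = Polynomial.C (algebraMap k F (coeff m g)) :=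
    rfl
  rw [h1, ← Polynomial.C_pow, ← mul_assoc, ← Polynomial.C_mul, Polynomial.coeff_C_mul,
    Polynomial.coeff_X_pow]
  split_ifs with h2 h3 h3
  · rw [Polynomial.aeval_monomial, mul_one]
  · exact absurd h2.symm h3
  · exact absurd h3.symm h2
  · rw [mul_zero]
    exact (map_zero (Polynomial.aeval u)).symm

lemma sp_ne (g : MvPolynomial (Fin 2) k) (hg : g ≠ 0) (u : F) (hu : Transcendental k u) :
    sp g u ≠ 0 := by
  intro h
  apply hg
  ext m
  rw [coeff_zero]
  have h1 : cf g (m 1) = 0 := by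
    by_contra h2
    refine hu ⟨cf g (m 1), h2, ?_⟩
    rw [← coeff_sp, h, Polynomial.coeff_zero]
  have h3 := congrArg (fun p => Polynomial.coeff p (m 0)) h1
  simp only [Polynomial.coeff_zero] at h3
  unfold cf at h3
  rw [Polynomial.finsetSum_coeff] at h3
  by_contra h4
  have h5 : m ∈ g.support := mem_support_iff.2 h4
  rw [Finset.sum_eq_single m] at h3
  · rw [if_pos rfl, Polynomial.coeff_monomial, if_pos rfl] at h3
    exact h4 h3
  · intro m' _ hm'
    split_ifs with h6
    · rw [Polynomial.coeff_monomial, if_neg]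
      intro h7
      apply hm'
      ext i
      fin_cases i
      · exact h7
      · exact h6
    · exact Polynomial.coeff_zero _
  · intro h6
    exact absurd h5 h6

lemma sp_deg (g : MvPolynomial (Fin 2) k) (u : F) (d : ℕ) (hd : g.degreeOf 1 ≤ d) :
    (sp g u).natDegree ≤ d := by
  rw [Polynomial.natDegree_le_iff_coeff_eq_zero]
  intro t ht
  rw [coeff_sp]
  have h1 : cf g t = 0 := by
    unfold cf
    refine Finset.sum_eq_zero fun m hm => ?_
    rw [if_neg]
    intro h2
    have h3 := (degreeOf_le_iff.1 hd) m hm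
    omega
  rw [h1, map_zero]

end plane

/-! ## Adjoining a root -/

section ext

variable {E L : Type} [Field E] [Field L] [Algebra E L]

lemma adj (F : IntermediateField E L) (hF : FiniteDimensional E F) (n d : ℕ)
    (hn : Module.finrank E F ≤ n) (y : L) (p : Polynomial F) (hp : p ≠ 0)
    (hy : Polynomial.aeval y p = 0) (hd : p.natDegree ≤ d) :
    ∃ F' : IntermediateField E L, F ≤ F' ∧ FiniteDimensional E F' ∧
      Module.finrank E F' ≤ n * d ∧ y ∈ F' := by
  have hint : IsIntegral F y := (show IsAlgebraic F y from ⟨p, hp, hy⟩).isIntegral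
  set G : IntermediateField F L := IntermediateField.adjoin F {y} with hG
  have hGf : FiniteDimensional F G := IntermediateField.adjoin.finiteDimensional hint
  have : Module.Free F G := Module.Free.of_divisionRing F G
  have hGr : Module.finrank F G = (minpoly F y).natDegree := IntermediateField.adjoin.finrank hint
  have hdeg : (minpoly F y).natDegree ≤ d :=
    (Polynomial.natDegree_le_of_dvd (minpoly.dvd F y hy) hp).trans hd
  refine ⟨G.restrictScalars E, ?_, ?_, ?_, ?_⟩
  · intro z hz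
    rw [IntermediateField.mem_restrictScalars]
    exact G.algebraMap_mem ⟨z, hz⟩
  · exact FiniteDimensional.trans E F G
  · have h1 : Module.finrank E (G.restrictScalars E) = Module.finrank E F * Module.finrank F G :=
      (Module.finrank_mul_finrank E F G).symm
    rw [h1, hGr]
    exact Nat.mul_le_mul hn hdeg
  · rw [IntermediateField.mem_restrictScalars]
    exact IntermediateField.mem_adjoin_simple_self F y

lemma adj_sq (F : IntermediateField E L) (hF : FiniteDimensional E F) (n : ℕ)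
    (hn : Module.finrank E F ≤ n) (y : L) (hy : y ^ 2 ∈ F) :
    ∃ F' : IntermediateField E L, F ≤ F' ∧ FiniteDimensional E F' ∧
      Module.finrank E F' ≤ n * 2 ∧ y ∈ F' := by
  refine adj F hF n 2 hn y (Polynomial.X ^ 2 - Polynomial.C ⟨y ^ 2, hy⟩) ?_ ?_ ?_
  · exact Polynomial.X_pow_sub_C_ne_zero (by norm_num) _
  · rw [map_sub, map_pow, Polynomial.aeval_X, Polynomial.aeval_C]
    exact sub_self _
  · exact (Polynomial.natDegree_X_pow_sub_C).le

end ext

/-! ## The theorem -/

section main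

variable {k E L : Type} [Field k] [Field E] [Field L] [Algebra k E] [Algebra E L] [Algebra k L]
  [IsScalarTower k E L]

lemma base_mem' (F : IntermediateField E L) (c : k) :
    algebraMap k L c ∈ F := by
  rw [IsScalarTower.algebraMap_apply k E L c]
  exact F.algebraMap_mem _

lemma Bf_mem (F : IntermediateField E L) (W : Affine k) (x : L)
    (hx : x ∈ F) : Bf (WL L W) x ∈ F := by
  unfold Bf WL
  rw [WeierstrassCurve.map_b₂, WeierstrassCurve.map_b₄, WeierstrassCurve.map_b₆]
  have h4 : (4 : L) ∈ F := ofNat_mem F 4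
  have h2 : (2 : L) ∈ F := ofNat_mem F 2
  exact F.add_mem (F.add_mem (F.add_mem (F.mul_mem h4 (pow_mem hx 3))
    (F.mul_mem (base_mem' F _) (pow_mem hx 2)))
    (F.mul_mem (F.mul_mem h2 (base_mem' F _)) hx)) (base_mem' F _)

lemma tra_base (x : L) (hx : Transcendental E x) : Transcendental k x :=
  hx.restrictScalars (algebraMap k E).injective

lemma ip_mono {W : Affine L} {F F' : Set L} (h : F ⊆ F') {P : W.Point} (hP : IP F P) :
    IP F' P := by
  rcases hP with h1 | ⟨h1, h2⟩
  · exact Or.inl h1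
  · exact Or.inr ⟨h h1, h h2⟩

/-- adjoining `x(a3)` where `g(u, x(a3)) = 0`. -/
lemma adj_g (F : IntermediateField E L)
    (hF : FiniteDimensional E F) (n d : ℕ) (hn : Module.finrank E F ≤ n)
    (g : MvPolynomial (Fin 2) k) (hg : g ≠ 0) (hd : g.degreeOf 1 ≤ d) (u y : L) (hu : u ∈ F)
    (htu : Transcendental k u) (hy : aeval ![u, y] g = 0) :
    ∃ F' : IntermediateField E L, F ≤ F' ∧ FiniteDimensional E F' ∧
      Module.finrank E F' ≤ n * d ∧ y ∈ F' := by
  have htow : IsScalarTower k F L := IsScalarTower.of_algebraMap_eq fun x => rfl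
  have hu' : Transcendental k (⟨u, hu⟩ : F) := by
    rintro ⟨p, hp, h0⟩
    refine htu ⟨p, hp, ?_⟩
    have h1 := congrArg (algebraMap F L) h0
    rw [← Polynomial.aeval_algebraMap_apply, map_zero] at h1
    exact h1
  refine adj F hF n d hn y (sp g (⟨u, hu⟩ : F)) (sp_ne g hg _ hu') ?_ (sp_deg g _ d hd)
  have h1 : Polynomial.aeval y (sp g (⟨u, hu⟩ : F)) =
      (((Polynomial.aeval y : Polynomial F →ₐ[F] L).restrictScalars k).comp
        (aeval ![Polynomial.C (⟨u, hu⟩ : F), Polynomial.X] :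
          MvPolynomial (Fin 2) k →ₐ[k] Polynomial F)) g := rfl
  have h2 : ((Polynomial.aeval y : Polynomial F →ₐ[F] L).restrictScalars k).comp
      (aeval ![Polynomial.C (⟨u, hu⟩ : F), Polynomial.X] :
          MvPolynomial (Fin 2) k →ₐ[k] Polynomial F) =
      (aeval ![u, y] : MvPolynomial (Fin 2) k →ₐ[k] L) := by
    apply MvPolynomial.algHom_ext
    intro i
    rw [AlgHom.comp_apply, aeval_X, aeval_X]
    fin_cases i
    · show Polynomial.aeval y (Polynomial.C (⟨u, hu⟩ : F)) = u
      rw [Polynomial.aeval_C]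
      rfl
    · show Polynomial.aeval y (Polynomial.X : Polynomial F) = y
      rw [Polynomial.aeval_X]
  rw [h1, h2, hy]

end main

theorem t (hS : S_SUBF) : Pool.Agent.Helper60.T3.S_FDEG := by
  intro k κ L _ _ _ _ _ _ _ _ _ W2 W3 D0 e g g' a2 b2 a3 b3 h
  set E : IntermediateField κ L := IntermediateField.adjoin κ {xc a2} with hE
  have hxE : xc a2 ∈ E := IntermediateField.mem_adjoin_simple_self κ (xc a2)
  have htow : IsScalarTower k E L := IsScalarTower.of_algebraMap_eq fun x => rfl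
  -- the first field
  have hx0 : xc a2 ∈ (⊥ : IntermediateField E L) :=
    (⊥ : IntermediateField E L).algebraMap_mem ⟨xc a2, hxE⟩
  obtain ⟨F1, hF01, hF1f, hF1r, hpa2⟩ := adj_sq (⊥ : IntermediateField E L) inferInstance 1
    IntermediateField.finrank_bot.le (ps a2) (by
      rw [ps_sq a2 h.a2n]
      exact Bf_mem _ W2 _ hx0)
  have hxa2 : xc a2 ∈ F1 := hF01 hx0
  have ia2 : IP (F1 : Set L) a2 := Or.inr ⟨hxa2, hpa2⟩
  have iw2 : IP (F1 : Set L) ((2 ^ e) • a2 - b2) := by
    refine ip_mono ?_ h.kw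
    rintro _ ⟨c, rfl⟩
    have h1 : algebraMap κ L c = algebraMap E L (algebraMap κ E c) := rfl
    rw [h1]
    exact F1.algebraMap_mem _
  have ib2 : IP (F1 : Set L) b2 := by
    have h1 : IP (F1 : Set L) ((2 ^ e) • a2) :=
      (hS k L W2 (F1.restrictScalars k) a2 a2 ia2 ia2).2.2.2 (2 ^ e)
    have h2 := (hS k L W2 (F1.restrictScalars k) ((2 ^ e) • a2) ((2 ^ e) • a2 - b2) h1 iw2).2.1
    rw [sub_sub_cancel] at h2
    exact h2
  have hxb2 : xc b2 ∈ F1 := by
    rcases ib2 with h1 | h1
    · exact absurd h1 h.b2n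
    · exact h1.1
  -- the second field
  obtain ⟨F2, hF12, hF2f, hF2r, hxa3⟩ := adj_g F1 hF1f _ D0 hF1r g h.irr.ne_zero (h.deg 1)
    (xc a2) (xc a3) hxa2 (tra_base _ h.tra) h.on
  obtain ⟨F3, hF23, hF3f, hF3r, hpa3⟩ := adj_sq F2 hF2f _ hF2r (ps a3) (by
      rw [ps_sq a3 h.a3n]
      exact Bf_mem _ W3 _ hxa3)
  obtain ⟨F4, hF34, hF4f, hF4r, hxb3⟩ := adj_g F3 hF3f _ D0 hF3r g' h.irr'.ne_zero (h.deg' 1)
    (xc b2) (xc b3) (hF23 (hF12 hxb2)) (tra_base _ h.trb) h.on'
  obtain ⟨F5, hF45, hF5f, hF5r, hpb3⟩ := adj_sq F4 hF4f _ hF4r (ps b3) (by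
      rw [ps_sq b3 h.b3n]
      exact Bf_mem _ W3 _ hxb3)
  have ia3 : IP (F5 : Set L) a3 := Or.inr ⟨hF45 (hF34 (hF23 hxa3)), hF45 (hF34 hpa3)⟩
  have ib3 : IP (F5 : Set L) b3 := Or.inr ⟨hF45 hxb3, hpb3⟩
  have h15 : (F1 : Set L) ⊆ (F5 : Set L) := fun z hz => hF45 (hF34 (hF23 (hF12 hz)))
  refine ⟨F5, hF5f, ?_, ip_mono h15 ia2, ip_mono h15 ib2, ia3, ib3, ?_⟩
  · refine hF5r.trans (le_of_eq ?_)
    ring
  · have h1 : IP (F5 : Set L) ((2 ^ e) • a3) :=
      (hS k L W3 (F5.restrictScalars k) a3 a3 ia3 ia3).2.2.2 (2 ^ e)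
    exact (hS k L W3 (F5.restrictScalars k) ((2 ^ e) • a3) b3 h1 ib3).2.1

end

end Pool.Agent.Helper34.T3.FDEG
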